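import Pool.Agent.Helper77.MT.Main

/-!
MP_b8862a_ag (motivated Mumford–Tate conjecture, the Tate half, for symplectic motives with no
condition on the Hodge numbers): one Frobenius element whose eigenvalues satisfy a mild condition
forces the monodromy group to contain the full symplectic group.
-/

open Matrix Polynomial

namespace Pool.Agent.Results.MP_b8862a_ag.OneFrobenius

/-- `χ` restricts to a homomorphism from the multiplicative group of `L` to `ℚ`. -/
def IsCharacter {L : Type*} [Field L] (χ : L → ℚ) : Prop :=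
  ∀ x y : L, x ≠ 0 → y ≠ 0 → χ (x * y) = χ x + χ y

/-- The functions `a ↦ χ (a ^ 2 / q)` on the set of roots of `P` in its splitting field, for all
homomorphisms `χ` from the multiplicative group of the splitting field to `ℚ`. Its dimension is
the rank of the group generated by the numbers `a ^ 2 / q`. -/
def frobeniusSpace {F : Type*} [Field F] (P : F[X]) (q : F) :
    Submodule ℚ (P.rootSet P.SplittingField → ℚ) where
  carrier := {h | ∃ χ : P.SplittingField → ℚ, IsCharacter χ ∧
    ∀ a : P.rootSet P.SplittingField,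
      h a = χ ((a : P.SplittingField) ^ 2 / algebraMap F P.SplittingField q)}
  add_mem' := by
    rintro h h' ⟨χ, h1, h2⟩ ⟨χ', h1', h2'⟩
    exact ⟨χ + χ', H77MT.IsChar.add h1 h1', fun a => by simp [h2 a, h2' a]⟩
  zero_mem' := ⟨0, H77MT.IsChar.zero, fun a => by simp⟩
  smul_mem' := by
    rintro c h ⟨χ, h1, h2⟩
    exact ⟨c • χ, H77MT.IsChar.smul c h1, fun a => by simp [h2 a]⟩

/-- No root of `P` is, up to roots of unity, the geometric mean of another root and some root. -/
def NoGeometricMean {F : Type*} [Field F] (P : F[X]) : Prop :=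
  ∀ a ∈ P.rootSet P.SplittingField, ∀ b ∈ P.rootSet P.SplittingField,
  ∀ c ∈ P.rootSet P.SplittingField, ∀ m : ℕ, 0 < m → (a * c) ^ m = b ^ (2 * m) → a = b

/-- The Frobenius space contains an integral vector with exactly `2 f` odd coordinates. -/
def HasOddVector {F : Type*} [Field F] (P : F[X]) (q : F) (f : ℕ) : Prop :=
  ∃ y : P.rootSet P.SplittingField → ℤ, (fun a => ((y a : ℤ) : ℚ)) ∈ frobeniusSpace P q ∧
    {a | Odd (y a)}.ncard = 2 * f

/-- The Galois group of `P` is transitive on the pairs `{a, q / a}` of roots of `P`. -/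
def PairTransitive {F : Type*} [Field F] (P : F[X]) (q : F) : Prop :=
  ∀ a ∈ P.rootSet P.SplittingField, ∀ b ∈ P.rootSet P.SplittingField,
    ∃ σ : P.SplittingField ≃ₐ[F] P.SplittingField,
      σ a = b ∨ σ a * b = algebraMap F P.SplittingField q

/-- The Galois group of `P` is doubly transitive on the pairs `{a, q / a}` of roots of `P`. -/
def PairTwoTransitive {F : Type*} [Field F] (P : F[X]) (q : F) : Prop :=
  ∀ a ∈ P.rootSet P.SplittingField, ∀ b ∈ P.rootSet P.SplittingField,
  ∀ c ∈ P.rootSet P.SplittingField, ∀ d ∈ P.rootSet P.SplittingField,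
    b ≠ a → a * b ≠ algebraMap F P.SplittingField q →
    d ≠ c → c * d ≠ algebraMap F P.SplittingField q →
    ∃ σ : P.SplittingField ≃ₐ[F] P.SplittingField,
      (σ a = c ∨ σ a * c = algebraMap F P.SplittingField q) ∧
      (σ b = d ∨ σ b * d = algebraMap F P.SplittingField q)

/-- No proper nonzero subspace has a finite orbit, i.e. the representation is irreducible on
every subgroup of finite index. -/
def StronglyIrreducible {Γ : Type*} [Group Γ] {K : Type*} [Field K] {n : ℕ}
    (ρ : Γ →* GL (Fin n) K) : Prop :=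
  ∀ W : Submodule K (Fin n → K), W ≠ ⊥ → W ≠ ⊤ →
    (Set.range fun γ : Γ => W.map (toLin' (ρ γ).val)).Infinite

/-- The Zariski closure of a set of matrices: all polynomials in the entries which vanish on the
set vanish at the matrix. -/
def zariskiClosure {K : Type*} [Field K] {n : ℕ} (S : Set (Matrix (Fin n) (Fin n) K)) :
    Set (Matrix (Fin n) (Fin n) K) :=
  {x | ∀ f : MvPolynomial (Fin n × Fin n) K,
    (∀ s ∈ S, MvPolynomial.aeval (fun p : Fin n × Fin n => s p.1 p.2) f = 0) →
      MvPolynomial.aeval (fun p : Fin n × Fin n => x p.1 p.2) f = 0}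

theorem result {F K : Type*} [Field F] [Field K] [CharZero K] [IsAlgClosed K] [Algebra F K]
    {Γ : Type*} [Group Γ] {g : ℕ} (ρ : Γ →* GL (Fin (2 * g)) K)
    -- a nondegenerate alternating form preserved up to scalars
    (J : Matrix (Fin (2 * g)) (Fin (2 * g)) K) (hJ : Jᵀ = -J) (hdet : IsUnit J.det)
    (hsim : ∀ γ, ∃ c : K, (ρ γ).valᵀ * J * (ρ γ).val = c • J)
    (hirr : StronglyIrreducible ρ)
    -- the Frobenius element
    (γ₀ : Γ) (P : F[X]) (hP : (ρ γ₀).val.charpoly = P.map (algebraMap F K))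
    (hsep : P.Separable) (q : F) (hq : (ρ γ₀).valᵀ * J * (ρ γ₀).val = algebraMap F K q • J)
    (htor : ∀ a ∈ P.rootSet P.SplittingField, ∀ b ∈ P.rootSet P.SplittingField,
      ∀ m : ℕ, 0 < m → a ^ m = b ^ m → a = b)
    -- the condition on its eigenvalues
    (hcase : ((NoGeometricMean P ∨ PairTransitive P q) ∧
        (Odd g ∨ ∃ f, Odd f ∧ g ≠ 2 * f ∧ HasOddVector P q f)) ∨
      (PairTwoTransitive P q ∧ (2 * g, Module.finrank ℚ (frobeniusSpace P q)) ∉
        ({(8, 3), (20, 5), (32, 6), (56, 7)} : Set (ℕ × ℕ)))) :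
    ∀ x : Matrix (Fin (2 * g)) (Fin (2 * g)) K, xᵀ * J * x = J →
      x ∈ zariskiClosure (Set.range fun γ => (ρ γ).val) := by
  intro x hx
  rcases Nat.eq_zero_or_pos g with hg | hg
  · subst hg
    intro f hf
    have h0 : x = (ρ 1).val := by
      ext i; exact i.elim0
    rw [h0]
    exact hf _ ⟨1, rfl⟩
  have : Nonempty (Fin (2 * g)) := ⟨⟨0, by omega⟩⟩
  refine H77MT.main (Set.range fun γ => (ρ γ).val) ⟨1, by simp⟩ ?_ ?_ J hJ hdet ?_ ?_
    (ρ γ₀).val ⟨γ₀, rfl⟩ P hP hsep q hq htor (g := g) (by simp) hcase x hx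
  · rintro _ ⟨γ, rfl⟩ _ ⟨δ, rfl⟩
    exact ⟨γ * δ, by simp⟩
  · rintro _ ⟨γ, rfl⟩
    refine ⟨_, ⟨γ⁻¹, rfl⟩, ?_⟩
    simp only
    rw [← Units.val_mul, ← map_mul, mul_inv_cancel, map_one, Units.val_one]
  · rintro _ ⟨γ, rfl⟩
    exact hsim γ
  · intro W h1 h2
    refine (hirr W h1 h2).mono ?_
    rintro _ ⟨γ, rfl⟩
    exact ⟨_, ⟨γ, rfl⟩, rfl⟩

end Pool.Agent.Results.MP_b8862a_ag.OneFrobenius
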