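import Pool.Agent.Helper2.UN.U10

/-!
Strong symplectic Mumford-Tate pairs of weights zero and one of unitary type, in which the
symmetries fixing a quadratic unipotent element are dense: the complete list of the triples
(signature, rank) which force the group to contain the special unitary group.
-/

open Module MTPairs

namespace Pool.Agent.Results.MP_b8862a_ag.ToricRankUnitary

/-- Let `R` be a set of triples `(p, q, t)` of natural numbers with `0 < t`. The following are
equivalent: every strong symplectic Mumford-Tate pair of weights `0` and `1` (the group `G` is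
generated by the conjugates of one cocharacter, given by the idempotent `π`, under `G` and under
a group `Γ` of semilinear automorphisms normalising `G`), whose standard representation is the
direct sum of two isotropic irreducible subspaces `W`, `W'` which are not isomorphic and which
are preserved or exchanged by every element of `Γ`, and such that for some `t` the triple
`(rank of π on W, rank of π on W', t)` is in `R` and the elements of `Γ` commuting with an
element of `G` of the form `1 + N`, `N² = 0`, rank of `N` equal to `t`, are dense in `Γ`,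
contains the group of all isometries of the form with Gram matrix `J` which preserve `W` and `W'`
and have determinant one on `W`; `R` contains no triple
`(C(n - 1, k - 1), C(n - 1, k), 2 C(n - 2, k - 1))` with `2 ≤ k ≤ n - 2` and `n ≠ 2 k`, and no
triple `(2 ^ n, 2 ^ n, 2 ^ n)` or `(2 ^ n, 2 ^ n, 2 ^ (n + 1))` with `n ≥ 3` odd. -/
theorem result {K : Type*} [Field K] [IsAlgClosed K] [CharZero K]
    (R : Set (ℕ × ℕ × ℕ)) (hR : ∀ p q t, (p, q, t) ∈ R → 0 < t) :
    (∀ (m : Type) [Fintype m] [DecidableEq m] (Γ : Subgroup (Equiv.Perm (m → K)))
      (J : Matrix m m K) (G : Subgroup (Matrix.GeneralLinearGroup m K)) (π : Matrix m m K)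
      (W W' : Submodule K (m → K)), IsStrongMTPair Γ J G π → IsUnitaryPair Γ J G W W' →
      (∃ t, DenseQuad Γ G ⊤ t ∧ (rankOn π W, rankOn π W', t) ∈ R) → ContainsSU J G W W') ↔
    (∀ n k, 2 ≤ k → k + 2 ≤ n → n ≠ 2 * k →
      ((n - 1).choose (k - 1), (n - 1).choose k, 2 * (n - 2).choose (k - 1)) ∉ R) ∧
    (∀ n, Odd n → 3 ≤ n → (2 ^ n, 2 ^ n, 2 ^ n) ∉ R ∧ (2 ^ n, 2 ^ n, 2 ^ (n + 1)) ∉ R) :=
  UN.unitary_complete R hR

end Pool.Agent.Results.MP_b8862a_ag.ToricRankUnitary
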